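import Pool.Agent.H36.ODG.Bas

/-!
# Involutions with two fixed points (MP_397744_co)
-/

set_option autoImplicit false

namespace Pool.Agent.H39.ODG

open Pool.Agent.H57.CP Pool.Agent.H39.TO Pool.Agent.H39.OD Pool.Agent.H50.ODG Pool.Agent.H36.ODG

/-- a vector orthogonal to a point is spacelike -/
theorem orth_neg (x : H3) (n : V4) (h : mk n x.1 = 0) (hn : n ≠ 0) : mk n n < 0 := by
  have hx := x.2.1
  have hx3 := x.2.2
  unfold mk at h hx ⊢
  set a := x.1 0
  set b := x.1 1
  set c := x.1 2
  set d := x.1 3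
  set p := n 0
  set q := n 1
  set r := n 2
  set s := n 3
  have h1 : s * d = p * a + q * b + r * c := by linarith
  have h2 : (s * d) ^ 2 ≤ (p ^ 2 + q ^ 2 + r ^ 2) * (a ^ 2 + b ^ 2 + c ^ 2) := by
    rw [h1]
    nlinarith [sq_nonneg (p * b - q * a), sq_nonneg (p * c - r * a), sq_nonneg (q * c - r * b)]
  have h3 : a ^ 2 + b ^ 2 + c ^ 2 = d ^ 2 - 1 := by nlinarith
  rw [h3] at h2
  by_contra h4
  push Not at h4
  have h5 : p ^ 2 + q ^ 2 + r ^ 2 ≤ s ^ 2 := by nlinarith
  have h6 : (p ^ 2 + q ^ 2 + r ^ 2) * d ^ 2 ≤ s ^ 2 * d ^ 2 := by gcongr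
  have h7 : p ^ 2 + q ^ 2 + r ^ 2 ≤ 0 := by nlinarith
  have hp : p = 0 := by nlinarith [sq_nonneg p, sq_nonneg q, sq_nonneg r]
  have hq : q = 0 := by nlinarith [sq_nonneg p, sq_nonneg q, sq_nonneg r]
  have hr : r = 0 := by nlinarith [sq_nonneg p, sq_nonneg q, sq_nonneg r]
  have hs : s = 0 := by
    rw [hp, hq, hr] at h1
    have : s * d = 0 := by linarith
    rcases mul_eq_zero.1 this with h | h
    · exact h
    · exact absurd h hx3.ne'
  apply hn
  funext i
  fin_cases i
  · exact hp
  · exact hq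
  · exact hr
  · exact hs

/-- two different points are independent -/
theorem pts_indep {x y : H3} (h : x ≠ y) {a b : ℝ} (h1 : a • x.1 + b • y.1 = 0) : a = 0 ∧ b = 0 := by
  have hx := x.2.2
  have hy := y.2.2
  have e1 : a • x.1 = (-b) • y.1 := by
    rw [neg_smul]; exact eq_neg_of_add_eq_zero_left h1
  have e2 : a * a = b * b := by
    have h2 : mk (a • x.1) (a • x.1) = mk ((-b) • y.1) ((-b) • y.1) := by rw [e1]
    rw [mk_smul_left, mk_smul_right, mk_smul_left, mk_smul_right, x.2.1, y.2.1] at h2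
    linarith
  rcases mul_self_eq_mul_self_iff.1 e2 with h3 | h3
  · have h4 : a * x.1 3 + b * y.1 3 = 0 := by
      have := congrFun h1 3
      simpa using this
    rw [h3] at h4 ⊢
    have h5 : b * (x.1 3 + y.1 3) = 0 := by linarith
    rcases mul_eq_zero.1 h5 with h6 | h6
    · exact ⟨h6, h6⟩
    · linarith
  · by_cases hb : b = 0
    · rw [hb] at h3; exact ⟨by linarith, hb⟩
    · exfalso
      apply h
      apply Subtype.ext
      rw [h3] at e1
      exact smul_right_injective V4 (neg_ne_zero.2 hb) e1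

theorem lin_ext {u : Fin 4 → V4} (hu : LinearIndependent ℝ u) {A B : V4 →ₗ[ℝ] V4} (h : ∀ i, A (u i) = B (u i)) :
    A = B := by
  have hc : Fintype.card (Fin 4) = Module.finrank ℝ V4 := by simp
  let b := basisOfLinearIndependentOfCardEqFinrank hu hc
  apply b.ext
  intro i
  have : b i = u i := by simp [b]
  rw [this]
  exact h i

theorem pf_IV2 : T_IV2 := by
  intro C x x' hC hCC hne hx hx' hne1
  by_cases hall : ∀ v, C v = v → ∃ s t : ℝ, v = s • x.1 + t • x'.1
  · exact Or.inr hall
  left
  push Not at hall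
  obtain ⟨v0, hv0, hv0s⟩ := hall
  obtain ⟨v, hv⟩ := hne1
  have hm0 : v - C v ≠ 0 := fun h => hv (sub_eq_zero.1 h).symm
  have hCm : C (v - C v) = -(v - C v) := by
    rw [map_sub, hCC]; abel
  have horth : ∀ w, C w = w → mk (v - C v) w = 0 := by
    intro w hw
    have h1 := hC.1 (v - C v) w
    rw [hCm, hw, mk_neg_left] at h1
    linarith
  have hneg := orth_neg x (v - C v) (horth x.1 hx) hm0
  have hs : 0 < √(-mk (v - C v) (v - C v)) := Real.sqrt_pos.2 (by linarith)
  set k : ℝ := (√(-mk (v - C v) (v - C v)))⁻¹ with hk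
  have hk2 : k * (k * mk (v - C v) (v - C v)) = -1 := by
    have h1 : √(-mk (v - C v) (v - C v)) * √(-mk (v - C v) (v - C v)) = -mk (v - C v) (v - C v) :=
      Real.mul_self_sqrt (by linarith)
    rw [← mul_assoc, hk, ← mul_inv, h1]
    field_simp
    rw [div_self hneg.ne]
  have hnn : mk (k • (v - C v)) (k • (v - C v)) = -1 := by
    rw [mk_smul_left, mk_smul_right]; exact hk2
  have hno : ∀ w, C w = w → mk (k • (v - C v)) w = 0 := fun w hw => by
    rw [mk_smul_left, horth w hw, mul_zero]
  have hCn : C (k • (v - C v)) = -(k • (v - C v)) := by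
    rw [map_smul, hCm, smul_neg]
  generalize k • (v - C v) = n at hnn hno hCn
  refine ⟨n, hnn, ?_⟩
  have hli : LinearIndependent ℝ ![x.1, x'.1, v0, n] := by
    rw [Fintype.linearIndependent_iff]
    intro g hg
    simp only [Fin.sum_univ_four, Matrix.cons_val] at hg
    have h3 : g 3 = 0 := by
      have h1 : mk n (g 0 • x.1 + g 1 • x'.1 + g 2 • v0 + g 3 • n) = 0 := by
        rw [hg]; simp [mk]
      rw [mk_add_right, mk_add_right, mk_add_right, mk_smul_right, mk_smul_right, mk_smul_right, mk_smul_right,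
        hno _ hx, hno _ hx', hno _ hv0, hnn] at h1
      linarith
    rw [h3, zero_smul, add_zero] at hg
    have h2 : g 2 = 0 := by
      by_contra h2
      apply hv0s (-(g 0 / g 2)) (-(g 1 / g 2))
      have : g 2 • v0 = g 2 • (-(g 0 / g 2) • x.1 + -(g 1 / g 2) • x'.1) := by
        rw [smul_add, smul_smul, smul_smul]
        have e0 : g 2 * -(g 0 / g 2) = -g 0 := by field_simp
        have e1 : g 2 * -(g 1 / g 2) = -g 1 := by field_simp
        rw [e0, e1, neg_smul, neg_smul]
        rw [eq_comm, ← sub_eq_zero]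
        rw [← neg_eq_zero]
        rw [← hg]
        abel
      exact smul_right_injective V4 h2 this
    rw [h2, zero_smul, add_zero] at hg
    obtain ⟨h0, h1⟩ := pts_indep hne hg
    intro i
    fin_cases i
    · exact h0
    · exact h1
    · exact h2
    · exact h3
  have : C = H57.CP.refl n := by
    apply lin_ext hli
    intro i
    fin_cases i
    · simp only [Fin.zero_eta, Matrix.cons_val]
      rw [hx, refl_eq, hno _ hx]; simp
    · simp only [Fin.mk_one, Matrix.cons_val]
      rw [hx', refl_eq, hno _ hx']; simp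
    · simp only [Fin.reduceFinMk, Matrix.cons_val]
      rw [hv0, refl_eq, hno _ hv0]; simp
    · simp only [Fin.reduceFinMk, Matrix.cons_val]
      rw [hCn, refl_eq, hnn]
      rw [show (2 * (-1) : ℝ) = -2 by norm_num]
      module
  intro w
  rw [this]

end Pool.Agent.H39.ODG
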