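import Pool.Agent.H39.ODG.IV2

/-!
# Class {0} does not occur for odd degrees (MP_397744_co)
-/

set_option autoImplicit false

namespace Pool.Agent.H39.ODG

open Pool.Agent.H57.CP Pool.Agent.H39.TO Pool.Agent.H39.OD Pool.Agent.H50.ODG Pool.Agent.H36.ODG

theorem iso_mul {g h : Equiv.Perm H3} (hg : IsIso g) (hh : IsIso h) : IsIso (g * h) := fun x y => by
  rw [Equiv.Perm.mul_apply, Equiv.Perm.mul_apply, hg, hh]

theorem appinv (g : Equiv.Perm H3) (x : H3) : g (g⁻¹ x) = x := g.apply_symm_apply x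

theorem iso_inv {g : Equiv.Perm H3} (hg : IsIso g) : IsIso g⁻¹ := fun x y => by
  have h := hg (g⁻¹ x) (g⁻¹ y)
  rw [appinv, appinv] at h
  exact h.symm

theorem pf_NO0 (hD0D : T_D0D) (hDM3 : T_DM3) (hSQ1 : T_SQ1) (hFXP : T_FXP) (hCOP : T_COP) (hD0R : T_D0R)
    (hD0Y : T_D0Y) (hPLN : T_PLN) (hINV : T_INV) (hEXT : T_EXT) (hSPN : T_SPN) (hRFX : T_RFX) (hSML : T_SML)
    (hLOR : T_LOR) : T_NO0 := by
  intro K p q hG h2 hI0 hO1 hO2 hFS hDG hq
  have hq2 : 2 ≤ q := by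
    have h := (hSML K hG).2.1 q (by rw [hDG]; rfl)
    exact_mod_cast h
  have hq3 : 3 ≤ q := by
    obtain ⟨k, hk⟩ := hq
    omega
  obtain ⟨x, y, f, D, r, hD⟩ := hD0D K p q hG h2 hI0 hO1 hO2 hFS hDG
  have hE := hD0R K x y f D r q p hD
  obtain ⟨Dl, c, u, hDl, -, hEx, hdet, hc, -, hcc, huu, hDu, hcu, -⟩ :=
    hPLN D y q hD.sD.iso hq hq3 hD.o1
  set E : Equiv.Perm H3 := D ^ (q + 1) with hEdef
  -- points of the polyhedron
  have gD : D ∈ Gr D r := Subgroup.subset_closure (by simp)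
  have gr : r ∈ Gr D r := Subgroup.subset_closure (by simp)
  have vx : x ∈ K.V := by
    rw [hD.eV]; exact ⟨1, one_mem _, rfl⟩
  have vy : y ∈ K.V := by
    rw [hD.eV]; exact ⟨r, gr, hD.rx.symm⟩
  have vDy : D y ∈ K.V := by
    rw [hD.eV]; exact ⟨D * r, mul_mem gD gr, by rw [Equiv.Perm.mul_apply, hD.rx]⟩
  have hli := hDM3 x y D q hD.sD.iso hD.Dx hq3 hD.o1
  have hrr : r * r = 1 := hSQ1 r x y (D y) hD.sr.iso (hD.rr x vx) (hD.rr y vy) (hD.rr _ vDy) hli
  obtain ⟨R, hR, hRx⟩ := hEXT r hD.sr.iso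
  have hRR : ∀ v, R (R v) = v := by
    have h : R * R = LinearMap.id := by
      apply hSPN
      intro z
      rw [Module.End.mul_apply, hRx z, hRx (r z), LinearMap.id_apply]
      have : r (r z) = (r * r) z := rfl
      rw [this, hrr]; rfl
    intro v
    have := congrArg (fun L : V4 →ₗ[ℝ] V4 => L v) h
    simpa using this
  -- the fixed point
  have hiE : IsIso E := hE.sD.iso
  have hig : IsIso (r * (E * r * E⁻¹)) := iso_mul hD.sr.iso (iso_mul (iso_mul hiE hD.sr.iso) (iso_inv hiE))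
  obtain ⟨z, hz⟩ := hFXP _ p x hig hE.m0 (hE.o2 x vx)
  have hz' : r (E (r (E⁻¹ z))) = z := by
    simpa [Equiv.Perm.mul_apply] using hz
  have hp0 : R (Dl (R (E⁻¹ z).1)) = Dl (E⁻¹ z).1 := by
    rw [hRx, hEx, hRx, hEx, hz', appinv]
  have hDx : Dl x.1 = x.1 := by rw [hEx, hE.Dx]
  have hDy : Dl y.1 ≠ y.1 := by
    rw [hEx]
    intro h
    have h1 : (E ^ 1) y = y := by rw [pow_one]; exact Subtype.ext h
    have h2 := (hE.o1 1).1 h1
    have := Nat.le_of_dvd one_pos h2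
    omega
  obtain ⟨n, hnn, hnx, hny, hnc, hnu, hRn⟩ := hCOP Dl R x y (E⁻¹ z) c u hDl hR hdet hRR hDx
    (by rw [hRx, hD.rx]) (by rw [hRx, hD.ry]) hDy hp0 hc hDu hcc huu hcu
  have hinv := hINV Dl c u n hDl hdet hc hDu hcc huu hcu hnn hnc hnu
  obtain ⟨hs, hsi, hss, -, -, -⟩ := hRFX n hnn
  apply hD0Y K x y f E r (rf n) q p hE hsi hss
  · apply Subtype.ext
    rw [hs, refl_eq, hnx]; simp
  · apply Subtype.ext
    rw [hs, refl_eq, hny]; simp
  · have h1 : E * rf n * E = rf n := by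
      apply Equiv.ext
      intro w
      apply Subtype.ext
      rw [Equiv.Perm.mul_apply, Equiv.Perm.mul_apply, ← hEx, hs, ← hEx, hs]
      have := congrArg (fun L : V4 →ₗ[ℝ] V4 => L w.1) hinv
      simpa [Module.End.mul_apply] using this
    calc rf n * E = E⁻¹ * (E * rf n * E) := by group
      _ = E⁻¹ * rf n := by rw [h1]
  · apply Equiv.ext
    intro w
    apply Subtype.ext
    rw [Equiv.Perm.mul_apply, Equiv.Perm.mul_apply, hs, ← hRx, ← hRx, hs, refl_eq, refl_eq, map_add, map_smul]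
    have h1 : mk n (R w.1) = mk (R n) w.1 := by
      have := hR.1 (R n) w.1
      rw [hRR] at this
      exact this
    rw [h1]
    rcases hRn with h | h
    · rw [h]
    · rw [h, mk_neg_left]; module

end Pool.Agent.H39.ODG
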